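import Pool.Agent.E8helper72.HR.Stm
import Pool.Agent.Results.MP_530d8e_an.HorizontallyRigid

/-!
# HR7: the planar problem at the end of the cylinder case
-/

set_option autoImplicit false

open MeasureTheory Set Real Filter Topology
open Pool.Agent.Results.MP_530d8e_an.HorizontallyRigid (Sim sim_const sim_const_one)

namespace Pool.Agent.E8helper44.HR

open H72HR

theorem sim_inv {F T : ℝ → ℝ} {ρ σ κ : ℝ} (h : Sim F T ρ σ κ) (hρ : 0 < ρ) (hσ : 0 < σ) :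
    ∃ (T' : ℝ → ℝ) (κ' : ℝ), Sim F T' ρ⁻¹ σ⁻¹ κ' := by
  have hT : ∀ x, T (Function.surjInv h.surj x) = x := Function.surjInv_eq h.surj
  refine ⟨Function.surjInv h.surj, -κ / σ, ⟨fun x y => ?_, fun y => ⟨T y, ?_⟩, fun x => ?_⟩⟩
  · have := h.dist_eq (Function.surjInv h.surj x) (Function.surjInv h.surj y)
    rw [hT, hT] at this
    rw [this, ← mul_assoc, inv_mul_cancel₀ hρ.ne', one_mul]
  · have h1 := h.dist_eq (Function.surjInv h.surj (T y)) y
    rw [hT, dist_self] at h1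
    have h2 : dist (Function.surjInv h.surj (T y)) y = 0 := by
      rcases mul_eq_zero.1 h1.symm with h3 | h3
      · exact absurd h3 hρ.ne'
      · exact h3
    exact dist_eq_zero.1 h2
  · have h1 := h.eq (Function.surjInv h.surj x)
    rw [hT] at h1
    rw [h1]
    field_simp
    ring

theorem sim_norm {F T : ℝ → ℝ} {ρ σ κ : ℝ} (h : Sim F T ρ σ κ) (hρ : 0 < ρ) (hρ1 : ρ ≠ 1)
    (hσ : 0 < σ) : ∃ (T' : ℝ → ℝ) (ρ' σ' κ' : ℝ), Sim F T' ρ' σ' κ' ∧ 0 < ρ' ∧ ρ' < 1 ∧ 0 < σ' ∧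
      Real.log σ' / Real.log ρ' = Real.log σ / Real.log ρ := by
  rcases lt_or_gt_of_ne hρ1 with h1 | h1
  · exact ⟨T, ρ, σ, κ, h, hρ, h1, hσ, rfl⟩
  · obtain ⟨T', κ', h'⟩ := sim_inv h hρ hσ
    refine ⟨T', ρ⁻¹, σ⁻¹, κ', h', inv_pos.2 hρ, inv_lt_one_of_one_lt₀ h1, inv_pos.2 hσ, ?_⟩
    rw [Real.log_inv, Real.log_inv, neg_div_neg_eq]

/-- exponent zero -/
theorem const_zero {F : ℝ → ℝ} (hF : Continuous F) {T : ℝ → ℝ} {ρ κ : ℝ} (h : Sim F T ρ 1 κ)
    (hρ : 0 < ρ) (hρ1 : ρ ≠ 1) : ∀ x y, F x = F y := by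
  rcases lt_or_gt_of_ne hρ1 with h1 | h1
  · exact sim_const_one hF h hρ h1
  · obtain ⟨T', κ', h'⟩ := sim_inv h hρ one_pos
    rw [inv_one] at h'
    exact sim_const_one hF h' (inv_pos.2 hρ) (inv_lt_one_of_one_lt₀ h1)

theorem const_aux {F : ℝ → ℝ} (hF : Continuous F) {T₁ T₂ : ℝ → ℝ} {ρ₁ σ₁ κ₁ ρ₂ σ₂ κ₂ : ℝ}
    (h₁ : Sim F T₁ ρ₁ σ₁ κ₁) (h₂ : Sim F T₂ ρ₂ σ₂ κ₂) (hρ₁ : 0 < ρ₁) (hρ₁1 : ρ₁ < 1)
    (hρ₂ : 0 < ρ₂) (hρ₂1 : ρ₂ < 1) (hσ₁ : 0 < σ₁) (hσ₂ : 0 < σ₂)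
    (he₂ : 0 < Real.log σ₂ / Real.log ρ₂)
    (he : Real.log σ₂ / Real.log ρ₂ < Real.log σ₁ / Real.log ρ₁) : ∀ x y, F x = F y := by
  have hl1 : Real.log ρ₁ < 0 := Real.log_neg hρ₁ hρ₁1
  have hl2 : Real.log ρ₂ < 0 := Real.log_neg hρ₂ hρ₂1
  set e₁ := Real.log σ₁ / Real.log ρ₁ with he1
  set e₂ := Real.log σ₂ / Real.log ρ₂ with he2
  have hs1 : Real.log σ₁ = e₁ * Real.log ρ₁ := by rw [he1, div_mul_cancel₀ _ hl1.ne]
  have hs2 : Real.log σ₂ = e₂ * Real.log ρ₂ := by rw [he2, div_mul_cancel₀ _ hl2.ne]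
  have he1p : 0 < e₁ := he₂.trans he
  set r := Real.log ρ₁ / Real.log ρ₂ with hr
  have hr0 : 0 < r := div_pos_of_neg_of_neg hl1 hl2
  have hr' : Real.log ρ₁ = r * Real.log ρ₂ := by rw [hr, div_mul_cancel₀ _ hl2.ne]
  obtain ⟨q, hq1, hq2⟩ := exists_rat_btwn (show r < e₁ / e₂ * r by
    have : 1 < e₁ / e₂ := (one_lt_div he₂).2 he
    nlinarith)
  have hq0 : (0 : ℝ) < q := hr0.trans hq1
  have hq0' : 0 < q := by exact_mod_cast hq0
  obtain ⟨b, hb⟩ : ∃ b : ℕ, q.num = b := ⟨q.num.toNat, by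
    rw [Int.toNat_of_nonneg (Rat.num_nonneg.2 hq0'.le)]⟩
  set a := q.den with ha
  have ha0 : 0 < a := q.den_pos
  have hqab : (q : ℝ) = b / a := by
    rw [Rat.cast_def, hb]
    push_cast
    rfl
  have hb0 : 0 < b := by
    rw [hqab] at hq0
    by_contra h
    push Not at h
    have : b = 0 := by omega
    rw [this] at hq0
    simp at hq0
  have haR : (0 : ℝ) < a := by exact_mod_cast ha0
  have hbR : (0 : ℝ) < b := by exact_mod_cast hb0
  have h3 : r * a < b := by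
    rw [hqab, lt_div_iff₀ haR] at hq1
    exact hq1
  have h4 : e₂ * b < e₁ * (r * a) := by
    rw [hqab, div_lt_iff₀ haR] at hq2
    have : e₂ * b < e₂ * (e₁ / e₂ * r * a) := mul_lt_mul_of_pos_left hq2 he₂
    calc e₂ * b < e₂ * (e₁ / e₂ * r * a) := this
      _ = e₁ * (r * a) := by field_simp
  obtain ⟨k1, g1⟩ := h₁.iterate a
  obtain ⟨k2, g2⟩ := h₂.iterate b
  have hσ₂1 : σ₂ < 1 := by
    by_contra hh
    push Not at hh
    have := Real.log_nonneg hh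
    rw [hs2] at this
    nlinarith
  refine sim_const hF g1 g2 (pow_pos hρ₂ _) ?_ (pow_lt_one₀ hρ₁.le hρ₁1 ha0.ne') (pow_pos hσ₁ _)
    ?_ (pow_lt_one₀ hσ₂.le hσ₂1 hb0.ne')
  · rw [← Real.log_le_log_iff (pow_pos hρ₂ _) (pow_pos hρ₁ _), Real.log_pow, Real.log_pow, hr']
    nlinarith
  · rw [← Real.log_lt_log_iff (pow_pos hσ₁ _) (pow_pos hσ₂ _), Real.log_pow, Real.log_pow, hs1,
      hs2, hr']
    nlinarith

/-- two different positive exponents -/
theorem const_two {F : ℝ → ℝ} (hF : Continuous F) {T₁ T₂ : ℝ → ℝ} {ρ₁ σ₁ κ₁ ρ₂ σ₂ κ₂ : ℝ}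
    (h₁ : Sim F T₁ ρ₁ σ₁ κ₁) (h₂ : Sim F T₂ ρ₂ σ₂ κ₂) (hρ₁ : 0 < ρ₁) (hρ₁1 : ρ₁ ≠ 1)
    (hρ₂ : 0 < ρ₂) (hρ₂1 : ρ₂ ≠ 1) (hσ₁ : 0 < σ₁) (hσ₂ : 0 < σ₂)
    (he₁ : 0 < Real.log σ₁ / Real.log ρ₁) (he₂ : 0 < Real.log σ₂ / Real.log ρ₂)
    (he : Real.log σ₁ / Real.log ρ₁ ≠ Real.log σ₂ / Real.log ρ₂) : ∀ x y, F x = F y := by
  obtain ⟨T₁', ρ₁', σ₁', κ₁', g1, r1, r1', s1, e1⟩ := sim_norm h₁ hρ₁ hρ₁1 hσ₁
  obtain ⟨T₂', ρ₂', σ₂', κ₂', g2, r2, r2', s2, e2⟩ := sim_norm h₂ hρ₂ hρ₂1 hσ₂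
  rw [← e1] at he₁ he
  rw [← e2] at he₂ he
  rcases lt_or_gt_of_ne he with h | h
  · exact const_aux hF g2 g1 r2 r2' r1 r1' s2 s1 he₁ h
  · exact const_aux hF g1 g2 r1 r1' r2 r2' s1 s2 he₂ h

/-! ### the exponents -/

/-- `s(c) = √(1 + c² B)` -/
noncomputable def ss (B c : ℝ) : ℝ := √(1 + c ^ 2 * B)

theorem ss_pos {B : ℝ} (hB : 0 ≤ B) (c : ℝ) : 0 < ss B c := Real.sqrt_pos.2 (by positivity)

theorem ss_sq {B : ℝ} (hB : 0 ≤ B) (c : ℝ) : ss B c ^ 2 = 1 + c ^ 2 * B :=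
  Real.sq_sqrt (by positivity)

theorem ss_one (B : ℝ) : ss B 1 = √(1 + B) := by rw [ss, one_pow, one_mul]

/-- the exponent of a pair `(c, d)` -/
noncomputable def ex (B c d : ℝ) : ℝ := Real.log (ss B c / ss B d) / Real.log (c / d)

theorem ex_zero (c d : ℝ) : ss 0 c / ss 0 d = 1 := by
  rw [ss, ss]; simp

theorem ex_symm (B c d : ℝ) : ex B c d = ex B d c := by
  rw [ex, ex, show ss B d / ss B c = (ss B c / ss B d)⁻¹ from (inv_div _ _).symm,
    show d / c = (c / d)⁻¹ from (inv_div _ _).symm, Real.log_inv, Real.log_inv, neg_div_neg_eq]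

theorem ex_mem {B : ℝ} (hB : 0 < B) {c d : ℝ} (hc : 0 < c) (hd : 0 < d) (hcd : c ≠ d) :
    0 < ex B c d ∧ ex B c d < 1 := by
  have main : ∀ c d : ℝ, 0 < d → d < c → 0 < ex B c d ∧ ex B c d < 1 := by
    intro c d hd hdc
    have hc : 0 < c := hd.trans hdc
    have h1 : 1 < c / d := (one_lt_div hd).2 hdc
    have hl : 0 < Real.log (c / d) := Real.log_pos h1
    have hsc := ss_pos hB.le c
    have hsd := ss_pos hB.le d
    have h2 : ss B d < ss B c := by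
      refine (pow_lt_pow_iff_left₀ hsd.le hsc.le two_ne_zero).1 ?_
      rw [ss_sq hB.le, ss_sq hB.le]
      nlinarith [mul_pos hB (sub_pos.2 hdc), mul_pos hB hc, mul_pos hB hd, mul_pos (mul_pos hB (sub_pos.2 hdc)) hc,
        mul_pos (mul_pos hB (sub_pos.2 hdc)) hd]
    have h3 : 1 < ss B c / ss B d := (one_lt_div hsd).2 h2
    have h4 : ss B c / ss B d < c / d := by
      rw [div_lt_div_iff₀ hsd hd]
      refine (pow_lt_pow_iff_left₀ (by positivity) (by positivity) two_ne_zero).1 ?_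
      rw [mul_pow, mul_pow, ss_sq hB.le, ss_sq hB.le]
      nlinarith [sub_pos.2 hdc]
    constructor
    · exact div_pos (Real.log_pos h3) hl
    · rw [ex, div_lt_one hl]
      exact Real.log_lt_log (by positivity) h4
  rcases lt_or_gt_of_ne hcd with h | h
  · rw [ex_symm]; exact main d c hc h
  · exact main c d hd h

/-- strict convexity: the exponents of `(c, 1)` are different for different `c` -/
theorem ex_ne {B : ℝ} (hB : 0 < B) {c d : ℝ} (hc : 0 < c) (hd : 0 < d) (hc1 : c ≠ 1) (hd1 : d ≠ 1)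
    (hcd : c ≠ d) : ex B c 1 ≠ ex B d 1 := by
  let L : ℝ → ℝ := fun x => Real.log (1 + B * Real.exp (2 * x)) / 2
  have hder : ∀ x, HasDerivAt L (1 - (1 + B * Real.exp (2 * x))⁻¹) x := by
    intro x
    have h0 : 0 < 1 + B * Real.exp (2 * x) := by positivity
    have h1 : HasDerivAt (fun x : ℝ => 1 + B * Real.exp (2 * x)) (B * (Real.exp (2 * x) * (2 * 1)))
        x := ((((hasDerivAt_id x).const_mul 2).exp).const_mul B).const_add 1
    have h2 := (h1.log h0.ne').div_const 2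
    refine h2.congr_deriv ?_
    field_simp
    ring
  have hdL : deriv L = fun x => 1 - (1 + B * Real.exp (2 * x))⁻¹ := funext fun x => (hder x).deriv
  have hconv : StrictConvexOn ℝ univ L := by
    refine StrictMono.strictConvexOn_univ_of_deriv
      (continuous_iff_continuousAt.2 fun x => (hder x).continuousAt) ?_
    rw [hdL]
    intro x y hxy
    have h0 : 0 < 1 + B * Real.exp (2 * x) := by positivity
    have h1 : 1 + B * Real.exp (2 * x) < 1 + B * Real.exp (2 * y) := by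
      have : Real.exp (2 * x) < Real.exp (2 * y) := Real.exp_lt_exp.2 (by linarith)
      nlinarith
    have h2 := inv_strictAnti₀ h0 h1
    show 1 - (1 + B * Real.exp (2 * x))⁻¹ < 1 - (1 + B * Real.exp (2 * y))⁻¹
    linarith
  have hL : ∀ c : ℝ, 0 < c → c ≠ 1 → ex B c 1 = (L (Real.log c) - L 0) / (Real.log c - 0) := by
    intro c hc hc1
    have h1 : Real.exp (2 * Real.log c) = c ^ 2 := by
      rw [mul_comm, Real.exp_mul, Real.exp_log hc]
      exact_mod_cast Real.rpow_natCast c 2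
    have h2 : Real.log (ss B c) = L (Real.log c) := by
      show Real.log √(1 + c ^ 2 * B) = Real.log (1 + B * Real.exp (2 * Real.log c)) / 2
      rw [h1, Real.log_sqrt (by positivity), mul_comm B]
    have h3 : Real.log (ss B 1) = L 0 := by
      show Real.log √(1 + 1 ^ 2 * B) = Real.log (1 + B * Real.exp (2 * 0)) / 2
      rw [mul_zero, Real.exp_zero, Real.log_sqrt (by positivity), mul_comm B]
      norm_num
    rw [ex, div_one, Real.log_div (ss_pos hB.le c).ne' (ss_pos hB.le 1).ne', h2, h3, sub_zero]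
  have hlog : ∀ c : ℝ, 0 < c → c ≠ 1 → Real.log c ≠ 0 := fun c hc hc1 =>
    Real.log_ne_zero_of_pos_of_ne_one hc hc1
  rw [hL c hc hc1, hL d hd hd1]
  rcases lt_or_gt_of_ne hcd with h | h
  · exact (hconv.secant_strict_mono (mem_univ 0) (mem_univ _) (mem_univ _) (hlog c hc hc1)
      (hlog d hd hd1) (Real.log_lt_log hc h)).ne
  · exact (hconv.secant_strict_mono (mem_univ 0) (mem_univ _) (mem_univ _) (hlog d hd hd1)
      (hlog c hc hc1) (Real.log_lt_log hd h)).ne'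

/-! ### the similarities -/

theorem sign_sq {ε : ℝ} (h : ε = 1 ∨ ε = -1) : ε ^ 2 = 1 := by
  rcases h with rfl | rfl <;> norm_num

theorem sign_abs {ε : ℝ} (h : ε = 1 ∨ ε = -1) : |ε| = 1 := by
  rcases h with rfl | rfl <;> norm_num

theorem sim_aff {F : ℝ → ℝ} {m t σ κ : ℝ} (hm : m ≠ 0) (h : ∀ y, F (m * y + t) = σ * F y + κ) :
    Sim F (fun y => m * y + t) |m| σ κ :=
  ⟨fun x y => by
    rw [Real.dist_eq, Real.dist_eq, ← abs_mul]
    congr 1
    ring, fun y => ⟨(y - t) / m, by field_simp; ring⟩, h⟩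

theorem sim_sq {F : ℝ → ℝ} {m t σ κ : ℝ} (hm : m ≠ 0) (h : ∀ y, F (m * y + t) = σ * F y + κ) :
    ∃ T κ', Sim F T (|m| ^ 2) (σ ^ 2) κ' := by
  obtain ⟨k, hk⟩ := (sim_aff hm h).iterate 2
  exact ⟨_, k, hk⟩

theorem log_sq_div (x y : ℝ) : Real.log (x ^ 2) / Real.log (y ^ 2) = Real.log x / Real.log y := by
  rw [Real.log_pow, Real.log_pow]
  push_cast
  rw [mul_div_mul_left _ _ two_ne_zero]

/-- the straight case -/
theorem straight {F : ℝ → ℝ} {B c : ℝ} (hc : 0 < c)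
    (h : ∃ t κ δ ε : ℝ, (δ = 1 ∨ δ = -1) ∧ (ε = 1 ∨ ε = -1) ∧
        ∀ y, F (c * δ * y + t) = ε * (√(1 + c ^ 2 * B) / √(1 + B)) * F y + κ) :
    ∃ T κ', Sim F T (c ^ 2) ((ss B c / ss B 1) ^ 2) κ' := by
  obtain ⟨t, κ, δ, ε, hδ, hε, h⟩ := h
  have hδ0 : δ ≠ 0 := by rcases hδ with rfl | rfl <;> norm_num
  obtain ⟨T, κ', hs⟩ := sim_sq (mul_ne_zero hc.ne' hδ0) h
  refine ⟨T, κ', ?_⟩
  rw [abs_mul, sign_abs hδ, mul_one, abs_of_pos hc, mul_pow, sign_sq hε, one_mul,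
    ← ss_one B] at hs
  exact hs

/-- the swapped case -/
theorem swapped {F : ℝ → ℝ} {B c : ℝ} (hB : 0 ≤ B) (hc : 0 < c)
    (h : ∃ a b ε : ℝ, (ε = 1 ∨ ε = -1) ∧
        ∀ y, F (a + c * ε / √(1 + B) * F y) = b + ε * √(1 + c ^ 2 * B) * y) :
    ∃ T κ', Sim F T (c * (ss B c / ss B 1)) (c * (ss B c / ss B 1)) κ' := by
  obtain ⟨a, b, ε, hε, h⟩ := h
  rw [← ss_one B] at h
  change ∀ y, F (a + c * ε / ss B 1 * F y) = b + ε * ss B c * y at h
  have hs1 := ss_pos hB 1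
  have hsc := ss_pos hB c
  have hε2 := sign_sq hε
  have hpos : 0 < c * (ss B c / ss B 1) := by positivity
  have key : ∀ y, F (c * (ss B c / ss B 1) * y + (a + c * ε / ss B 1 * b)) =
      c * (ss B c / ss B 1) * F y + (b + ε * ss B c * a) := by
    intro y
    have h1 := h (a + c * ε / ss B 1 * F y)
    rw [h y] at h1
    have e1 : a + c * ε / ss B 1 * (b + ε * ss B c * y) =
        c * (ss B c / ss B 1) * y + (a + c * ε / ss B 1 * b) := by
      have : c * ε / ss B 1 * (ε * ss B c * y) = ε ^ 2 * (c * (ss B c / ss B 1) * y) := by ring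
      rw [mul_add, this, hε2]
      ring
    have e2 : b + ε * ss B c * (a + c * ε / ss B 1 * F y) =
        c * (ss B c / ss B 1) * F y + (b + ε * ss B c * a) := by
      have : ε * ss B c * (c * ε / ss B 1 * F y) = ε ^ 2 * (c * (ss B c / ss B 1) * F y) := by ring
      rw [mul_add, this, hε2]
      ring
    rw [e1, e2] at h1
    exact h1
  have := sim_aff hpos.ne' key
  rw [abs_of_pos hpos] at this
  exact ⟨_, _, this⟩

/-- two swapped -/
theorem both {F : ℝ → ℝ} {B c d : ℝ} (hB : 0 ≤ B) (hc : 0 < c) (hd : 0 < d)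
    (h : ∃ a b ε : ℝ, (ε = 1 ∨ ε = -1) ∧
        ∀ y, F (a + c * ε / √(1 + B) * F y) = b + ε * √(1 + c ^ 2 * B) * y)
    (h' : ∃ a b ε : ℝ, (ε = 1 ∨ ε = -1) ∧
        ∀ y, F (a + d * ε / √(1 + B) * F y) = b + ε * √(1 + d ^ 2 * B) * y) :
    ∃ T κ', Sim F T ((c / d) ^ 2) ((ss B c / ss B d) ^ 2) κ' := by
  obtain ⟨a, b, ε, hε, h⟩ := h
  obtain ⟨a', b', ε', hε', h'⟩ := h'
  rw [← ss_one B] at h h'
  change ∀ y, F (a + c * ε / ss B 1 * F y) = b + ε * ss B c * y at h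
  change ∀ y, F (a' + d * ε' / ss B 1 * F y) = b' + ε' * ss B d * y at h'
  have hs1 := ss_pos hB 1
  have hsc := ss_pos hB c
  have hsd := ss_pos hB d
  have hε2 := sign_sq hε
  have hε2' := sign_sq hε'
  have hε0 : ε ≠ 0 := by rcases hε with rfl | rfl <;> norm_num
  have hε0' : ε' ≠ 0 := by rcases hε' with rfl | rfl <;> norm_num
  have key : ∀ z, F (c * ε / (d * ε') * z + (a - c * ε / (d * ε') * a')) =
      (ε * ss B c / (ε' * ss B d)) * F z + (b - ε * ss B c / (ε' * ss B d) * b') := by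
    intro z
    -- `z = G' y`
    obtain ⟨x, hx⟩ : ∃ x, F x = (z - a') / (d * ε' / ss B 1) := by
      refine ⟨_, (h' (((z - a') / (d * ε' / ss B 1) - b') / (ε' * ss B d))).trans ?_⟩
      field_simp
      ring
    have hz : z = a' + d * ε' / ss B 1 * F x := by
      rw [hx]
      field_simp
      ring
    have e1 : c * ε / (d * ε') * z + (a - c * ε / (d * ε') * a') = a + c * ε / ss B 1 * F x := by
      rw [hz]
      field_simp
      ring
    rw [e1, h x]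
    have e2 : F z = b' + ε' * ss B d * x := by rw [hz, h' x]
    rw [e2]
    field_simp
    ring
  obtain ⟨T, κ', hs⟩ := sim_sq (by positivity) key
  refine ⟨T, κ', ?_⟩
  have e1 : |c * ε / (d * ε')| ^ 2 = (c / d) ^ 2 := by
    rw [sq_abs, div_pow, mul_pow, mul_pow, hε2, hε2', mul_one, mul_one, div_pow]
  have e2 : (ε * ss B c / (ε' * ss B d)) ^ 2 = (ss B c / ss B d) ^ 2 := by
    rw [div_pow, mul_pow, mul_pow, hε2, hε2', one_mul, one_mul, div_pow]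
  rw [e1, e2] at hs
  exact hs

theorem slope_ne {B c : ℝ} (hB : 0 ≤ B) (hc : 0 < c) (hc1 : c ≠ 1) :
    c * (ss B c / ss B 1) ≠ 1 := by
  have hs1 := ss_pos hB 1
  have hsc := ss_pos hB c
  rcases lt_or_gt_of_ne hc1 with h | h
  · have h1 : ss B c ≤ ss B 1 := Real.sqrt_le_sqrt (by
      have : c ^ 2 ≤ 1 ^ 2 := by nlinarith
      nlinarith [mul_le_mul_of_nonneg_right this hB])
    have h2 : ss B c / ss B 1 ≤ 1 := (div_le_one hs1).2 h1
    have h3 : 0 < ss B c / ss B 1 := by positivity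
    nlinarith
  · have h1 : ss B 1 ≤ ss B c := Real.sqrt_le_sqrt (by
      have : 1 ^ 2 ≤ c ^ 2 := by nlinarith
      nlinarith [mul_le_mul_of_nonneg_right this hB])
    have h2 : 1 ≤ ss B c / ss B 1 := (one_le_div hs1).2 h1
    nlinarith

theorem sq_ne_one {x : ℝ} (h0 : 0 < x) (h : x ≠ 1) : x ^ 2 ≠ 1 := by
  intro h2
  have h3 : (x - 1) * (x + 1) = 0 := by linear_combination h2
  rcases mul_eq_zero.1 h3 with h4 | h4
  · exact h (by linarith)
  · linarith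

theorem t_CYL : S_CYL := by
  intro F B hF hB c₁ c₂ hc₁ hc₂ hc₁1 hc₂1 hne hrel
  rcases hB.eq_or_lt with hB0 | hB0
  · -- `B = 0`
    subst hB0
    rcases hrel c₁ (Or.inl rfl) with h1 | h1
    · obtain ⟨T, κ, hs⟩ := straight hc₁ h1
      rw [ex_zero, one_pow] at hs
      exact const_zero hF hs (by positivity) (sq_ne_one hc₁ hc₁1)
    · rcases hrel c₂ (Or.inr rfl) with h2 | h2
      · obtain ⟨T, κ, hs⟩ := straight hc₂ h2
        rw [ex_zero, one_pow] at hs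
        exact const_zero hF hs (by positivity) (sq_ne_one hc₂ hc₂1)
      · obtain ⟨T, κ, hs⟩ := both le_rfl hc₁ hc₂ h1 h2
        rw [ex_zero, one_pow] at hs
        refine const_zero hF hs (by positivity) (sq_ne_one (by positivity) ?_)
        rw [Ne, div_eq_one_iff_eq hc₂.ne']
        exact hne
  · -- `B > 0`
    have hr : ∀ c d : ℝ, 0 < ss B c / ss B d := fun c d =>
      div_pos (ss_pos hB c) (ss_pos hB d)
    have hex : ∀ c, Real.log ((ss B c / ss B 1) ^ 2) / Real.log (c ^ 2) = ex B c 1 := by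
      intro c
      rw [log_sq_div, ex, div_one]
    have hsw : ∀ c : ℝ, 0 < c → c ≠ 1 → Real.log (c * (ss B c / ss B 1)) /
        Real.log (c * (ss B c / ss B 1)) = 1 := fun c hc hc1 =>
      div_self (Real.log_ne_zero_of_pos_of_ne_one (mul_pos hc (hr c 1)) (slope_ne hB hc hc1))
    rcases hrel c₁ (Or.inl rfl) with h1 | h1 <;> rcases hrel c₂ (Or.inr rfl) with h2 | h2
    · obtain ⟨T, κ, hs⟩ := straight hc₁ h1
      obtain ⟨T', κ', hs'⟩ := straight hc₂ h2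
      refine const_two hF hs hs' (by positivity) (sq_ne_one hc₁ hc₁1) (by positivity)
        (sq_ne_one hc₂ hc₂1) (pow_pos (hr _ _) 2) (pow_pos (hr _ _) 2) ?_ ?_ ?_
      · rw [hex]; exact (ex_mem hB0 hc₁ one_pos hc₁1).1
      · rw [hex]; exact (ex_mem hB0 hc₂ one_pos hc₂1).1
      · rw [hex, hex]; exact ex_ne hB0 hc₁ hc₂ hc₁1 hc₂1 hne
    · obtain ⟨T, κ, hs⟩ := straight hc₁ h1
      obtain ⟨T', κ', hs'⟩ := swapped hB hc₂ h2
      refine const_two hF hs hs' (by positivity) (sq_ne_one hc₁ hc₁1) (mul_pos hc₂ (hr _ _))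
        (slope_ne hB hc₂ hc₂1) (pow_pos (hr _ _) 2) (mul_pos hc₂ (hr _ _)) ?_ ?_ ?_
      · rw [hex]; exact (ex_mem hB0 hc₁ one_pos hc₁1).1
      · rw [hsw c₂ hc₂ hc₂1]; exact one_pos
      · rw [hex, hsw c₂ hc₂ hc₂1]; exact (ex_mem hB0 hc₁ one_pos hc₁1).2.ne
    · obtain ⟨T, κ, hs⟩ := swapped hB hc₁ h1
      obtain ⟨T', κ', hs'⟩ := straight hc₂ h2
      refine const_two hF hs' hs (by positivity) (sq_ne_one hc₂ hc₂1) (mul_pos hc₁ (hr _ _))
        (slope_ne hB hc₁ hc₁1) (pow_pos (hr _ _) 2) (mul_pos hc₁ (hr _ _)) ?_ ?_ ?_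
      · rw [hex]; exact (ex_mem hB0 hc₂ one_pos hc₂1).1
      · rw [hsw c₁ hc₁ hc₁1]; exact one_pos
      · rw [hex, hsw c₁ hc₁ hc₁1]; exact (ex_mem hB0 hc₂ one_pos hc₂1).2.ne
    · obtain ⟨T, κ, hs⟩ := swapped hB hc₁ h1
      obtain ⟨T', κ', hs'⟩ := both hB hc₁ hc₂ h1 h2
      have hcc : c₁ / c₂ ≠ 1 := by
        rw [Ne, div_eq_one_iff_eq hc₂.ne']
        exact hne
      have he : Real.log ((ss B c₁ / ss B c₂) ^ 2) / Real.log ((c₁ / c₂) ^ 2) = ex B c₁ c₂ :=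
        log_sq_div _ _
      refine const_two hF hs' hs (by positivity) (sq_ne_one (by positivity) hcc)
        (mul_pos hc₁ (hr _ _)) (slope_ne hB hc₁ hc₁1) (pow_pos (hr _ _) 2)
        (mul_pos hc₁ (hr _ _)) ?_ ?_ ?_
      · rw [he]; exact (ex_mem hB0 hc₁ hc₂ hne).1
      · rw [hsw c₁ hc₁ hc₁1]; exact one_pos
      · rw [he, hsw c₁ hc₁ hc₁1]; exact (ex_mem hB0 hc₁ hc₂ hne).2.ne

end Pool.Agent.E8helper44.HR
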